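import Pool.Agent.Helper72_Cut.Statements

/-!
# Squad MP_1dbb29_pr: birth-death chains (modules BSUP, BMIN, LADS, LADE)
-/

set_option autoImplicit false

namespace H72C
namespace Lad

open Finset

variable {U : ℕ → ℝ} {m : ℕ}

theorem U_nonneg (hU : GoodU U m) {j : ℕ} (hj : j ≤ m) : 0 ≤ U j := (hU.pos j hj).le

/-- the down rate -/
noncomputable def dn (U : ℕ → ℝ) (j : ℕ) : ℝ := if j = 0 then 0 else U (j - 1) / 4

theorem dn_nonneg (hU : GoodU U m) {j : ℕ} (hj : j ≤ m) : 0 ≤ dn U j := by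
  unfold dn
  split_ifs with h
  · exact le_refl _
  · have := hU.pos (j - 1) (by omega); linarith

theorem dn_le (hU : GoodU U m) {j : ℕ} (hj : j ≤ m) : dn U j ≤ 1 / 8 := by
  unfold dn
  split_ifs with h
  · norm_num
  · have := hU.le (j - 1) (by omega); linarith

theorem stay_nonneg (hU : GoodU U m) {j : ℕ} (hj : j ≤ m) : 0 ≤ 1 - U j - dn U j := by
  have h1 := hU.le j hj
  have h2 := dn_le hU hj
  linarith

theorem BD_in (U : ℕ → ℝ) (m y : ℕ) (φ : ℕ → ℝ) {j : ℕ} (h1 : y ≤ j) (h2 : j ≤ m) :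
    BD U m y φ j = (1 - U j - dn U j) * φ j + (if j < m then U j * φ (j + 1) else 0)
      + (if y < j then U (j - 1) / 4 * φ (j - 1) else 0) := by
  unfold BD dn
  rw [if_pos ⟨h1, h2⟩]

theorem BD_mono (hU : GoodU U m) {y : ℕ} {φ ψ : ℕ → ℝ} (h : ∀ j, y ≤ j → j ≤ m → φ j ≤ ψ j)
    {j : ℕ} (h1 : y ≤ j) (h2 : j ≤ m) : BD U m y φ j ≤ BD U m y ψ j := by
  rw [BD_in U m y φ h1 h2, BD_in U m y ψ h1 h2]
  refine add_le_add (add_le_add ?_ ?_) ?_
  · exact mul_le_mul_of_nonneg_left (h j h1 h2) (stay_nonneg hU h2)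
  · split_ifs with h3
    · exact mul_le_mul_of_nonneg_left (h _ (by omega) (by omega)) (U_nonneg hU h2)
    · exact le_refl _
  · split_ifs with h3
    · refine mul_le_mul_of_nonneg_left (h _ (by omega) (by omega)) ?_
      have := U_nonneg hU (show j - 1 ≤ m by omega)
      linarith
    · exact le_refl _

theorem BD_smul (U : ℕ → ℝ) (m y : ℕ) (a : ℝ) (φ : ℕ → ℝ) (j : ℕ) :
    BD U m y (fun l => a * φ l) j = a * BD U m y φ j := by
  by_cases h : y ≤ j ∧ j ≤ m
  · rw [BD_in U m y _ h.1 h.2, BD_in U m y _ h.1 h.2]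
    split_ifs <;> ring
  · unfold BD; rw [if_neg h, if_neg h, mul_zero]

theorem bIt_succ (U : ℕ → ℝ) (m y : ℕ) (φ : ℕ → ℝ) (t j : ℕ) :
    bIt U m y φ (t + 1) j = BD U m y (bIt U m y φ t) j := by
  unfold bIt
  rw [Function.iterate_succ_apply']

theorem bIt_zero (U : ℕ → ℝ) (m y : ℕ) (φ : ℕ → ℝ) {j : ℕ} (h1 : y ≤ j) (h2 : j ≤ m) :
    bIt U m y φ 0 j = φ j := by
  unfold bIt
  rw [Function.iterate_zero, id, if_pos ⟨h1, h2⟩]

theorem bIt_out (U : ℕ → ℝ) (m y : ℕ) (φ : ℕ → ℝ) (t : ℕ) {j : ℕ} (h : ¬ (y ≤ j ∧ j ≤ m)) :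
    bIt U m y φ t j = 0 := by
  cases t with
  | zero => unfold bIt; rw [Function.iterate_zero, id, if_neg h]
  | succ t => rw [bIt_succ]; unfold BD; rw [if_neg h]

theorem BSUP : BSUP_stmt := by
  intro U m y ρ c ψ φ hU hρ hc hψ hBD hφ t
  induction t with
  | zero =>
    intro j h1 h2
    rw [bIt_zero U m y φ h1 h2, pow_zero, mul_one]
    exact hφ j h1 h2
  | succ t ih =>
    intro j h1 h2
    rw [bIt_succ]
    calc BD U m y (bIt U m y φ t) j ≤ BD U m y (fun l => c * ρ ^ t * ψ l) j := BD_mono hU ih h1 h2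
      _ = c * ρ ^ t * BD U m y ψ j := BD_smul U m y _ ψ j
      _ ≤ c * ρ ^ t * (ρ * ψ j) :=
          mul_le_mul_of_nonneg_left (hBD j h1 h2) (mul_nonneg hc (pow_nonneg hρ _))
      _ = c * ρ ^ (t + 1) * ψ j := by ring

theorem BMIN : BMIN_stmt := by
  intro U m y ρ c ψ φ hU hρ hc hψ hψy hφ hBD T hT t
  induction t with
  | zero =>
    intro _ j h1 h2
    rw [bIt_zero U m y φ (by omega) h2, bIt_zero U m (y + 1) φ h1 h2, sub_self, pow_zero, mul_one]
    exact mul_nonneg hc (hψ j (by omega) h2)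
  | succ t ih =>
    intro ht j h1 h2
    have ih' := ih (by omega)
    have key : bIt U m y φ (t + 1) j - bIt U m (y + 1) φ (t + 1) j
        = BD U m y (fun l => bIt U m y φ t l - bIt U m (y + 1) φ t l) j := by
      rw [bIt_succ, bIt_succ, BD_in U m y _ (by omega) h2, BD_in U m (y + 1) _ h1 h2,
        BD_in U m y _ (by omega) h2, if_pos (show y < j by omega), if_pos (show y < j by omega)]
      rcases Nat.lt_or_ge (y + 1) j with h3 | h3
      · rw [if_pos h3]
        split_ifs <;> ring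
      · rw [if_neg (show ¬ (y + 1 < j) by omega)]
        have h4 : bIt U m (y + 1) φ t (j - 1) = 0 := bIt_out U m (y + 1) φ t (by omega)
        simp only [h4]
        split_ifs <;> ring
    rw [key]
    calc BD U m y (fun l => bIt U m y φ t l - bIt U m (y + 1) φ t l) j
        ≤ BD U m y (fun l => c * ρ ^ t * ψ l) j := by
          apply BD_mono hU _ (by omega) h2
          intro l hl1 hl2
          rcases Nat.eq_or_lt_of_le hl1 with h | h
          · subst h
            have h4 : bIt U m (y + 1) φ t y = 0 := bIt_out U m (y + 1) φ t (by omega)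
            rw [h4, sub_zero]
            calc bIt U m y φ t y ≤ c * ρ ^ t := hT t (by omega)
              _ ≤ c * ρ ^ t * ψ y := le_mul_of_one_le_right (mul_nonneg hc (pow_nonneg hρ _)) hψy
          · exact ih' l h hl2
      _ = c * ρ ^ t * BD U m y ψ j := BD_smul U m y _ ψ j
      _ ≤ c * ρ ^ t * (ρ * ψ j) :=
          mul_le_mul_of_nonneg_left (hBD j h1 h2) (mul_nonneg hc (pow_nonneg hρ _))
      _ = c * ρ ^ (t + 1) * ψ j := by ring

theorem tele (U : ℕ → ℝ) (m : ℕ) (φ : ℕ → ℝ) (t j : ℕ) :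
    bIt U m 0 φ t j = ∑ y ∈ range (j + 1), (bIt U m y φ t j - bIt U m (y + 1) φ t j) := by
  rw [Finset.sum_range_sub']
  rw [bIt_out U m (j + 1) φ t (by omega), sub_zero]

/-- the test function `3^{-(j-y)}` -/
noncomputable def psi (y j : ℕ) : ℝ := (1 / 3) ^ (j - y)

theorem psi_pos (y j : ℕ) : 0 < psi y j := by unfold psi; positivity

theorem psi_self (y : ℕ) : psi y y = 1 := by unfold psi; simp

theorem psi_succ {y j : ℕ} (h : y ≤ j) : psi y (j + 1) = psi y j / 3 := by
  unfold psi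
  rw [show j + 1 - y = (j - y) + 1 by omega, pow_succ]; ring

theorem psi_pred {y j : ℕ} (h : y < j) : psi y (j - 1) = 3 * psi y j := by
  unfold psi
  rw [show j - y = (j - 1 - y) + 1 by omega, pow_succ]; ring

theorem BD_psi (hU : GoodU U m) {y j : ℕ} (h1 : y + 1 ≤ j) (h2 : j ≤ m) :
    BD U m y (psi y) j ≤ (1 - U y / 30) * psi y j := by
  have hp := psi_pos y j
  have hUj := hU.pos j h2
  have hm1 := hU.mono (j - 1) j (by omega) h2
  have hm2 := hU.mono y j (by omega) h2
  have hUj1 := hU.pos (j - 1) (by omega)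
  rw [BD_in U m y _ (by omega) h2, if_pos (show y < j by omega), psi_pred (by omega),
    psi_succ (by omega)]
  have hd : dn U j = U (j - 1) / 4 := by unfold dn; rw [if_neg (by omega)]
  rw [hd]
  have h3 : (if j < m then U j * (psi y j / 3) else 0) ≤ U j * (psi y j / 3) := by
    split_ifs
    · exact le_refl _
    · positivity
  have h4 : (1 - U j - U (j - 1) / 4) * psi y j + U j * (psi y j / 3)
      + U (j - 1) / 4 * (3 * psi y j) = (1 - 2 / 3 * U j + U (j - 1) / 2) * psi y j := by ring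
  have h5 : (1 - 2 / 3 * U j + U (j - 1) / 2) ≤ 1 - U y / 30 := by linarith
  have h6 := mul_le_mul_of_nonneg_right h5 hp.le
  linarith

/-- the test function `2^{-(j-y)}` -/
noncomputable def chi (y j : ℕ) : ℝ := (1 / 2) ^ (j - y)

theorem chi_pos (y j : ℕ) : 0 < chi y j := by unfold chi; positivity

theorem chi_self (y : ℕ) : chi y y = 1 := by unfold chi; simp

theorem chi_succ {y j : ℕ} (h : y ≤ j) : chi y (j + 1) = chi y j / 2 := by
  unfold chi
  rw [show j + 1 - y = (j - y) + 1 by omega, pow_succ]; ring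

theorem chi_pred {y j : ℕ} (h : y < j) : chi y (j - 1) = 2 * chi y j := by
  unfold chi
  rw [show j - y = (j - 1 - y) + 1 by omega, pow_succ]; ring

theorem BD_chi (hU : GoodU U m) {y j : ℕ} (h1 : y ≤ j) (h2 : j ≤ m) :
    BD U m y (chi y) j ≤ (1 - U y / 30) * chi y j := by
  have hp := chi_pos y j
  have hUj := hU.pos j h2
  have hm2 := hU.mono y j h1 h2
  have hUy := hU.pos y (by omega)
  rw [BD_in U m y _ h1 h2, chi_succ h1]
  have h3 : (if j < m then U j * (chi y j / 2) else 0) ≤ U j * (chi y j / 2) := by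
    split_ifs
    · exact le_refl _
    · positivity
  rcases Nat.eq_or_lt_of_le h1 with h | h
  · subst h
    rw [if_neg (lt_irrefl y)]
    have hd := dn_nonneg hU h2
    have h4 : (1 - U y - dn U y) * chi y y + U y * (chi y y / 2) + 0
        = (1 - U y / 2 - dn U y) * chi y y := by ring
    have h5 : (1 - U y / 2 - dn U y) ≤ 1 - U y / 30 := by linarith
    have h6 := mul_le_mul_of_nonneg_right h5 hp.le
    linarith
  · have hm1 := hU.mono (j - 1) j (by omega) h2
    have hUj1 := hU.pos (j - 1) (by omega)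
    have hd : dn U j = U (j - 1) / 4 := by unfold dn; rw [if_neg (by omega)]
    rw [hd, if_pos h, chi_pred h]
    have h4 : (1 - U j - U (j - 1) / 4) * chi y j + U j * (chi y j / 2)
        + U (j - 1) / 4 * (2 * chi y j) = (1 - U j / 2 + U (j - 1) / 4) * chi y j := by ring
    have h5 : (1 - U j / 2 + U (j - 1) / 4) ≤ 1 - U y / 30 := by linarith
    have h6 := mul_le_mul_of_nonneg_right h5 hp.le
    linarith

theorem rho_nonneg (hU : GoodU U m) {y : ℕ} (h : y ≤ m) : 0 ≤ 1 - U y / 30 := by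
  have := hU.le y h; linarith

theorem rho_le_one (hU : GoodU U m) {y : ℕ} (h : y ≤ m) : 1 - U y / 30 ≤ 1 := by
  have := hU.pos y h; linarith

/-- part of the paths with minimal level `y`, given a bound at level `y` -/
theorem part_le (hU : GoodU U m) {y : ℕ} (hy : y ≤ m) {φ : ℕ → ℝ} (hφ : ∀ j, 0 ≤ φ j) {ρ c : ℝ}
    (hρ : 0 ≤ ρ) (hc : 0 ≤ c) (hρ2 : 1 - U y / 30 ≤ ρ)
    (hb : ∀ t, bIt U m y φ t y ≤ c * ρ ^ t) {t j : ℕ} (h1 : y ≤ j) (h2 : j ≤ m) :
    bIt U m y φ t j - bIt U m (y + 1) φ t j ≤ c * ρ ^ t * psi y j := by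
  rcases Nat.eq_or_lt_of_le h1 with h | h
  · subst h
    rw [bIt_out U m (y + 1) φ t (by omega), sub_zero, psi_self, mul_one]
    exact hb t
  · refine BMIN U m y ρ c (psi y) φ hU hρ hc (fun j _ _ => (psi_pos y j).le)
      (by rw [psi_self]) hφ ?_ t (fun s _ => hb s) t le_rfl j h h2
    intro l hl1 hl2
    exact (BD_psi hU hl1 hl2).trans (mul_le_mul_of_nonneg_right hρ2 (psi_pos y l).le)

theorem part_high (hU : GoodU U m) {y : ℕ} (hy : y ≤ m) {φ : ℕ → ℝ} (hφ : ∀ j, 0 ≤ φ j)
    (hφ1 : ∀ j, φ j ≤ 1) {t j : ℕ} (h1 : y ≤ j) (h2 : j ≤ m) :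
    bIt U m y φ t j - bIt U m (y + 1) φ t j ≤ 2 ^ m * (1 - U y / 30) ^ t * psi y j := by
  refine part_le hU hy hφ (rho_nonneg hU hy) (by positivity) le_rfl ?_ h1 h2
  intro s
  have := BSUP U m y (1 - U y / 30) (2 ^ m) (chi y) φ hU (rho_nonneg hU hy) (by positivity)
    (fun j _ _ => (chi_pos y j).le) (fun j a b => BD_chi hU a b) ?_ s y le_rfl hy
  · rw [chi_self, mul_one] at this
    exact this
  · intro l hl1 hl2
    refine (hφ1 l).trans ?_
    unfold chi
    have h3 : (1 / 2 : ℝ) ^ m ≤ (1 / 2) ^ (l - y) :=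
      pow_le_pow_of_le_one (by norm_num) (by norm_num) (by omega)
    calc (1 : ℝ) = 2 ^ m * (1 / 2) ^ m := by rw [← mul_pow]; norm_num
      _ ≤ 2 ^ m * (1 / 2) ^ (l - y) := mul_le_mul_of_nonneg_left h3 (by positivity)

theorem part_high' (hU : GoodU U m) {y : ℕ} (hy : y ≤ m) {φ : ℕ → ℝ} (hφ : ∀ j, 0 ≤ φ j)
    (hφ1 : ∀ j, φ j ≤ 1) {t4 : ℕ} {ε0 : ℝ} (hε : 2 ^ m * (1 - U y / 30) ^ t4 ≤ ε0 * (1 / 4) ^ y)
    {t j : ℕ} (ht : t4 ≤ t) (h1 : y ≤ j) (h2 : j ≤ m) :
    bIt U m y φ t j - bIt U m (y + 1) φ t j ≤ ε0 * (1 / 4) ^ y * psi y j := by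
  refine (part_high hU hy hφ hφ1 h1 h2).trans ?_
  refine mul_le_mul_of_nonneg_right ?_ (psi_pos y j).le
  refine le_trans ?_ hε
  refine mul_le_mul_of_nonneg_left ?_ (by positivity)
  exact pow_le_pow_of_le_one (rho_nonneg hU hy) (rho_le_one hU hy) ht

theorem psi_eq {y j : ℕ} (h : y ≤ j) : psi y j = 3 ^ y / 3 ^ j := by
  unfold psi
  have : (3 : ℝ) ^ j = 3 ^ (j - y) * 3 ^ y := by rw [← pow_add]; congr 1; omega
  rw [this, one_div, inv_pow]
  field_simp

theorem LADS : LADS_stmt := by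
  intro U m J t4 ε0 hU hε0 hε8 hJ t ht j hj
  rw [tele]
  have hone : ∀ l : ℕ, (0 : ℝ) ≤ (fun _ : ℕ => (1 : ℝ)) l := fun _ => by norm_num
  have hterm : ∀ y ∈ range (j + 1), bIt U m y (fun _ => 1) t j - bIt U m (y + 1) (fun _ => 1) t j
      ≤ ((if y < J then 3 ^ y else 0) + ε0 * (3 / 4) ^ y) / 3 ^ j := by
    intro y hy
    rw [Finset.mem_range] at hy
    have hyj : y ≤ j := by omega
    have hym : y ≤ m := by omega
    rcases Nat.lt_or_ge y J with h | h
    · rw [if_pos h]
      have h1 : ∀ s, bIt U m y (fun _ => 1) s y ≤ 1 * 1 ^ s := by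
        intro s
        have := BSUP U m y 1 1 (fun _ => 1) (fun _ => 1) hU (by norm_num) (by norm_num)
          (fun _ _ _ => by norm_num) ?_ (fun _ _ _ => by norm_num) s y le_rfl hym
        · simpa using this
        · intro l hl1 hl2
          rw [BD_in U m y _ hl1 hl2]
          have hUl := hU.pos l hl2
          have e1 : (if l < m then U l * 1 else 0) ≤ U l := by split_ifs <;> linarith
          have e2 : (if y < l then U (l - 1) / 4 * 1 else 0) ≤ dn U l := by
            split_ifs with h3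
            · unfold dn; rw [if_neg (by omega)]; linarith
            · exact dn_nonneg hU hl2
          linarith
      have h2 := part_le hU hym hone (by norm_num : (0:ℝ) ≤ 1) (by norm_num : (0:ℝ) ≤ 1)
        (rho_le_one hU hym) h1 (t := t) hyj hj
      rw [one_pow, one_mul, one_mul, psi_eq hyj] at h2
      refine h2.trans ?_
      apply div_le_div_of_nonneg_right _ (by positivity)
      have : 0 ≤ ε0 * (3 / 4) ^ y := by positivity
      linarith
    · rw [if_neg (by omega), zero_add]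
      have h2 := part_high' hU hym hone (fun _ => le_rfl) (hJ y h hym) ht hyj hj
      refine h2.trans (le_of_eq ?_)
      rw [psi_eq hyj, div_pow, div_pow, one_pow]
      ring
  refine (Finset.sum_le_sum hterm).trans ?_
  rw [← Finset.sum_div]
  apply div_le_div_of_nonneg_right _ (by positivity)
  rw [Finset.sum_add_distrib, ← Finset.mul_sum]
  have h1 : ∑ y ∈ range (j + 1), (if y < J then (3 : ℝ) ^ y else 0) ≤ (3 ^ J - 1) / 2 := by
    have e1 : ∑ y ∈ range (j + 1), (if y < J then (3 : ℝ) ^ y else 0)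
        = ∑ y ∈ (range (j + 1)).filter (· < J), (3 : ℝ) ^ y := by rw [Finset.sum_filter]
    rw [e1]
    have e2 : ∑ y ∈ (range (j + 1)).filter (· < J), (3 : ℝ) ^ y ≤ ∑ y ∈ range J, (3 : ℝ) ^ y := by
      apply Finset.sum_le_sum_of_subset_of_nonneg
      · intro y hy
        rw [Finset.mem_filter] at hy
        exact Finset.mem_range.2 hy.2
      · intro y _ _; positivity
    refine e2.trans (le_of_eq ?_)
    rw [geom_sum_eq (by norm_num)]; norm_num
  have h2 : ∑ y ∈ range (j + 1), ((3 : ℝ) / 4) ^ y ≤ 4 := by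
    rw [geom_sum_eq (by norm_num)]
    have : (0 : ℝ) ≤ (3 / 4) ^ (j + 1) := by positivity
    rw [div_le_iff_of_neg (by norm_num)]
    linarith
  have h3 : ε0 * ∑ y ∈ range (j + 1), ((3 : ℝ) / 4) ^ y ≤ 1 / 2 := by
    calc ε0 * ∑ y ∈ range (j + 1), ((3 : ℝ) / 4) ^ y ≤ ε0 * 4 :=
          mul_le_mul_of_nonneg_left h2 hε0.le
      _ ≤ 1 / 2 := by linarith
  have h4 : (1 : ℝ) ≤ 3 ^ J := one_le_pow₀ (by norm_num)
  linarith

/-! ## LADE -/

theorem sS_pos (hU : GoodU U m) {j : ℕ} (hj : j ≤ m) : 0 < sS U j := by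
  unfold sS
  have h1 := hU.pos j hj
  have h2 : ((1 : ℝ) / 4) ^ (j + 1) < 1 := pow_lt_one₀ (by norm_num) (by norm_num) (by omega)
  have h3 : 0 < 1 - ((1 : ℝ) / 4) ^ (j + 1) := by linarith
  positivity

theorem U_mul_sS (hU : GoodU U m) {j : ℕ} (hj : j ≤ m) :
    U j * sS U j = (4 / 3) * (1 - (1 / 4) ^ (j + 1)) := by
  unfold sS
  have h1 := hU.pos j hj
  field_simp

theorem SS_succ (U : ℕ → ℝ) (j : ℕ) : SS U (j + 1) = SS U j + sS U j := by
  unfold SS; rw [Finset.sum_range_succ]

theorem SS_mono (hU : GoodU U m) {i j : ℕ} (hij : i ≤ j) (hj : j ≤ m + 1) : SS U i ≤ SS U j := by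
  unfold SS
  apply Finset.sum_le_sum_of_subset_of_nonneg
  · exact Finset.range_mono hij
  · intro l hl _
    rw [Finset.mem_range] at hl
    exact (sS_pos hU (by omega)).le

theorem exp_neg_le {x : ℝ} (hx : 0 ≤ x) : Real.exp (-x) ≤ 1 - x + x ^ 2 / 2 := by
  have h := Real.quadratic_le_exp_of_nonneg hx
  have h1 : 0 < Real.exp x := Real.exp_pos x
  rw [Real.exp_neg, inv_le_iff_one_le_mul₀ h1]
  have h2 : 0 ≤ 1 - x + x ^ 2 / 2 := by nlinarith [sq_nonneg (x - 1)]
  have h3 : (1 - x + x ^ 2 / 2) * (1 + x + x ^ 2 / 2) ≤ (1 - x + x ^ 2 / 2) * Real.exp x :=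
    mul_le_mul_of_nonneg_left h h2
  nlinarith [sq_nonneg (x ^ 2)]

theorem exp_le {x : ℝ} (hx : 0 ≤ x) (hx1 : x ≤ 1) : Real.exp x ≤ 1 + x + x ^ 2 := by
  have := Real.exp_bound' hx hx1 (n := 2) (by norm_num)
  simp only [Finset.sum_range_succ, Finset.sum_range_zero, Nat.factorial] at this
  norm_num at this
  nlinarith [sq_nonneg x]

theorem BD_exp (hU : GoodU U m) {y : ℕ} (hy : y ≤ m) {ε lam S : ℝ} (hε : 0 < ε) (hε1 : ε ≤ 1 / 18)
    (hlam : lam = 3 / 5 * ε * U y) {j : ℕ} (h1 : y ≤ j) (h2 : j ≤ m) :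
    BD U m y (fun l => Real.exp (-(lam * (SS U l - S)))) j
      ≤ (1 - (1 - ε) * lam) * Real.exp (-(lam * (SS U j - S))) := by
  have hUy := hU.pos y hy
  have hlam0 : 0 < lam := by rw [hlam]; positivity
  set f : ℕ → ℝ := fun l => Real.exp (-(lam * (SS U l - S))) with hf
  have hfpos : ∀ l, 0 < f l := fun l => Real.exp_pos _
  have hfs : ∀ l, f (l + 1) = Real.exp (-(lam * sS U l)) * f l := by
    intro l
    simp only [hf]
    rw [← Real.exp_add, SS_succ]
    congr 1; ring
  have hUj := hU.pos j h2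
  have hsj := sS_pos hU h2
  -- lam * s_l ≤ ε
  have hls : ∀ l, y ≤ l → l ≤ m → lam * sS U l ≤ ε := by
    intro l hl1 hl2
    have e1 := U_mul_sS hU hl2
    have e2 := hU.pos l hl2
    have e3 := hU.mono y l hl1 hl2
    have e4 : U l * sS U l ≤ 4 / 3 := by
      rw [e1]
      have : (0 : ℝ) ≤ (1 / 4) ^ (l + 1) := by positivity
      linarith
    have e5 := sS_pos hU hl2
    calc lam * sS U l = 3 / 5 * ε * (U y * sS U l) := by rw [hlam]; ring
      _ ≤ 3 / 5 * ε * (5 / 4 * U l * sS U l) := by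
          apply mul_le_mul_of_nonneg_left _ (by positivity)
          exact mul_le_mul_of_nonneg_right e3 e5.le
      _ = 3 / 4 * ε * (U l * sS U l) := by ring
      _ ≤ 3 / 4 * ε * (4 / 3) := mul_le_mul_of_nonneg_left e4 (by positivity)
      _ = ε := by ring
  have hup : (if j < m then U j * f (j + 1) else 0)
      ≤ U j * ((1 - lam * sS U j + (lam * sS U j) ^ 2 / 2) * f j) := by
    have e1 : U j * f (j + 1) ≤ U j * ((1 - lam * sS U j + (lam * sS U j) ^ 2 / 2) * f j) := by
      apply mul_le_mul_of_nonneg_left _ hUj.le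
      rw [hfs]
      exact mul_le_mul_of_nonneg_right (exp_neg_le (by positivity)) (hfpos j).le
    split_ifs
    · exact e1
    · exact le_trans (mul_pos hUj (hfpos _)).le e1
  have hx0 : 0 ≤ lam * sS U j := by positivity
  have hxe := hls j h1 h2
  have hUs := U_mul_sS hU h2
  rw [BD_in U m y _ h1 h2]
  rcases Nat.eq_or_lt_of_le h1 with h | h
  · subst h
    rw [if_neg (lt_irrefl y), add_zero]
    have hd := dn_nonneg hU h2
    have hUs1 : 1 ≤ U y * sS U y := by
      rw [hUs]
      have : ((1 : ℝ) / 4) ^ (y + 1) ≤ 1 / 4 := by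
        rw [pow_succ]
        have : ((1 : ℝ) / 4) ^ y ≤ 1 := pow_le_one₀ (by norm_num) (by norm_num)
        linarith
      linarith
    have e2 : (1 - U y - dn U y) * f y + U y * ((1 - lam * sS U y + (lam * sS U y) ^ 2 / 2) * f y)
        = (1 - dn U y - lam * (U y * sS U y) * (1 - lam * sS U y / 2)) * f y := by ring
    have e3 : (1 - dn U y - lam * (U y * sS U y) * (1 - lam * sS U y / 2)) ≤ 1 - (1 - ε) * lam := by
      have e4 : lam * (1 - ε) ≤ lam * (U y * sS U y) * (1 - lam * sS U y / 2) := by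
        calc lam * (1 - ε) ≤ lam * 1 * (1 - lam * sS U y / 2) := by nlinarith
          _ ≤ lam * (U y * sS U y) * (1 - lam * sS U y / 2) := by
              apply mul_le_mul_of_nonneg_right _ (by linarith)
              exact mul_le_mul_of_nonneg_left hUs1 hlam0.le
      linarith
    have e5 := mul_le_mul_of_nonneg_right e3 (hfpos y).le
    linarith
  · rw [if_pos h]
    have hUj1 := hU.pos (j - 1) (by omega)
    have hsj1 := sS_pos hU (show j - 1 ≤ m by omega)
    have hxe1 := hls (j - 1) (by omega) (by omega)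
    have hx1 : 0 ≤ lam * sS U (j - 1) := by positivity
    have hUs1 := U_mul_sS hU (show j - 1 ≤ m by omega)
    have hd : dn U j = U (j - 1) / 4 := by unfold dn; rw [if_neg (by omega)]
    have hfp : f (j - 1) = Real.exp (lam * sS U (j - 1)) * f j := by
      have := hfs (j - 1)
      rw [show j - 1 + 1 = j by omega] at this
      rw [this, ← mul_assoc, ← Real.exp_add]
      simp
    have hdown : U (j - 1) / 4 * f (j - 1)
        ≤ U (j - 1) / 4 * ((1 + lam * sS U (j - 1) + (lam * sS U (j - 1)) ^ 2) * f j) := by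
      apply mul_le_mul_of_nonneg_left _ (by linarith)
      rw [hfp]
      exact mul_le_mul_of_nonneg_right (exp_le hx1 (by linarith)) (hfpos j).le
    rw [hd]
    have hid : U j * sS U j - U (j - 1) * sS U (j - 1) / 4 = 1 := by
      rw [hUs, hUs1, show j - 1 + 1 = j by omega, pow_succ]
      ring
    have e2 : (1 - U j - U (j - 1) / 4) * f j
        + U j * ((1 - lam * sS U j + (lam * sS U j) ^ 2 / 2) * f j)
        + U (j - 1) / 4 * ((1 + lam * sS U (j - 1) + (lam * sS U (j - 1)) ^ 2) * f j)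
        = (1 - lam * (U j * sS U j - U (j - 1) * sS U (j - 1) / 4)
          + lam * (U j * sS U j * (lam * sS U j) / 2
            + U (j - 1) * sS U (j - 1) / 4 * (lam * sS U (j - 1)))) * f j := by ring
    have e3 : U j * sS U j ≤ 4 / 3 := by
      rw [hUs]
      have : (0 : ℝ) ≤ (1 / 4) ^ (j + 1) := by positivity
      linarith
    have e4 : U (j - 1) * sS U (j - 1) / 4 ≤ 1 / 3 := by
      rw [hUs1]
      have : (0 : ℝ) ≤ (1 / 4) ^ (j - 1 + 1) := by positivity
      linarith
    have e5 : U j * sS U j * (lam * sS U j) / 2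
            + U (j - 1) * sS U (j - 1) / 4 * (lam * sS U (j - 1)) ≤ ε := by
      have f1 : U j * sS U j * (lam * sS U j) ≤ 4 / 3 * ε :=
        mul_le_mul e3 hxe hx0 (by norm_num)
      have f2 : U (j - 1) * sS U (j - 1) / 4 * (lam * sS U (j - 1)) ≤ 1 / 3 * ε :=
        mul_le_mul e4 hxe1 hx1 (by norm_num)
      linarith
    have e6 : (1 - lam * (U j * sS U j - U (j - 1) * sS U (j - 1) / 4)
          + lam * (U j * sS U j * (lam * sS U j) / 2
            + U (j - 1) * sS U (j - 1) / 4 * (lam * sS U (j - 1)))) ≤ 1 - (1 - ε) * lam := by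
      rw [hid]
      have := mul_le_mul_of_nonneg_left e5 hlam0.le
      linarith
    have e7 := mul_le_mul_of_nonneg_right e6 (hfpos j).le
    linarith

theorem LADE : LADE_stmt := by
  intro U m J t4 i ε0 ε σ hU hε0 hε8 hε hε18 hσ him hSσ hlow hJ t ht ht2 j hj
  set φ : ℕ → ℝ := fun l => if l ≤ i then 1 else 0 with hφ
  have hφ0 : ∀ l, 0 ≤ φ l := by
    intro l; simp only [hφ]; split_ifs <;> norm_num
  have hφ1 : ∀ l, φ l ≤ 1 := by
    intro l; simp only [hφ]; split_ifs <;> norm_num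
  rw [tele]
  have hterm : ∀ y ∈ range (j + 1), bIt U m y φ t j - bIt U m (y + 1) φ t j
      ≤ ε0 * (1 / 4) ^ y * psi y j := by
    intro y hy
    rw [Finset.mem_range] at hy
    have hyj : y ≤ j := by omega
    have hym : y ≤ m := by omega
    rcases Nat.lt_or_ge y J with h | h
    · have hUy := hU.pos y hym
      have hUy2 := hU.le y hym
      set lam : ℝ := 3 / 5 * ε * U y with hlam
      have hlam0 : 0 < lam := by positivity
      have hlam1 : lam ≤ 1 / 60 := by
        rw [hlam]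
        calc 3 / 5 * ε * U y ≤ 3 / 5 * (1 / 18) * (1 / 2) := by
              apply mul_le_mul _ hUy2 hUy.le (by norm_num)
              linarith
          _ = 1 / 60 := by norm_num
      have hρ : 0 ≤ 1 - (1 - ε) * lam := by nlinarith
      have hρ2 : 1 - U y / 30 ≤ 1 - (1 - ε) * lam := by
        have : (1 - ε) * lam ≤ U y / 30 := by
          calc (1 - ε) * lam ≤ 1 * lam := by
                apply mul_le_mul_of_nonneg_right _ hlam0.le; linarith
            _ = 3 / 5 * ε * U y := by rw [one_mul]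
            _ ≤ 3 / 5 * (1 / 18) * U y := by
                apply mul_le_mul_of_nonneg_right _ hUy.le; linarith
            _ = U y / 30 := by ring
        linarith
      have hb : ∀ s, bIt U m y φ s y ≤ Real.exp (lam * SS U i) * (1 - (1 - ε) * lam) ^ s := by
        intro s
        have h3 := BSUP U m y (1 - (1 - ε) * lam) 1
          (fun l => Real.exp (-(lam * (SS U l - SS U i)))) φ hU hρ (by norm_num)
          (fun l _ _ => (Real.exp_pos _).le)
          (fun l a b => BD_exp hU hym hε hε18 hlam a b) ?_ s y le_rfl hym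
        · refine h3.trans ?_
          rw [one_mul, mul_comm]
          apply mul_le_mul_of_nonneg_right _ (pow_nonneg hρ _)
          apply Real.exp_le_exp.2
          have h4 : 0 ≤ SS U y := by
            have := SS_mono hU (Nat.zero_le y) (by omega)
            simpa [SS] using this
          nlinarith
        · intro l hl1 hl2
          simp only [hφ, one_mul]
          split_ifs with h5
          · have h6 := SS_mono hU h5 (by omega)
            rw [← Real.exp_zero]
            apply Real.exp_le_exp.2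
            nlinarith
          · exact (Real.exp_pos _).le
      have h3 := part_le hU hym hφ0 hρ (Real.exp_pos _).le hρ2 hb (t := t) hyj hj
      refine h3.trans ?_
      apply mul_le_mul_of_nonneg_right _ (psi_pos y j).le
      have h4 : (1 - (1 - ε) * lam) ^ t ≤ Real.exp (-((1 - ε) * lam) * t) := by
        have h5 : 1 - (1 - ε) * lam ≤ Real.exp (-((1 - ε) * lam)) := by
          have := Real.add_one_le_exp (-((1 - ε) * lam)); linarith
        calc (1 - (1 - ε) * lam) ^ t ≤ (Real.exp (-((1 - ε) * lam))) ^ t :=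
              pow_le_pow_left₀ hρ h5 t
          _ = Real.exp (-((1 - ε) * lam) * t) := by
              rw [← Real.exp_nat_mul]; congr 1; ring
      calc Real.exp (lam * SS U i) * (1 - (1 - ε) * lam) ^ t
          ≤ Real.exp (lam * SS U i) * Real.exp (-((1 - ε) * lam) * t) :=
            mul_le_mul_of_nonneg_left h4 (Real.exp_pos _).le
        _ = Real.exp (lam * SS U i - (1 - ε) * lam * t) := by
            rw [← Real.exp_add]; congr 1; ring
        _ ≤ Real.exp (Real.log ε0 - y * Real.log 4) := by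
            apply Real.exp_le_exp.2
            have h6 := hlow y h hym
            rw [one_div, Real.log_inv] at h6
            have h7 : (1 - ε) * lam * (SS U i + σ) ≤ (1 - ε) * lam * t :=
              mul_le_mul_of_nonneg_left ht2 (mul_nonneg (by linarith) hlam0.le)
            have h8 : lam * (ε * (SS U i + σ)) ≤ lam * (σ / 2) :=
              mul_le_mul_of_nonneg_left hSσ hlam0.le
            have h9 : lam * (σ / 2) = 3 / 10 * ε * σ * U y := by rw [hlam]; ring
            nlinarith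
        _ = ε0 * (1 / 4) ^ y := by
            rw [Real.exp_sub, Real.exp_log hε0, mul_comm (y : ℝ), Real.exp_mul,
              Real.exp_log (by norm_num), Real.rpow_natCast, div_pow, one_pow]
            ring
    · exact part_high' hU hym hφ0 hφ1 (hJ y h hym) ht hyj hj
  refine (Finset.sum_le_sum hterm).trans ?_
  have h2 : ∑ y ∈ range (j + 1), ((3 : ℝ) / 4) ^ y ≤ 4 := by
    rw [geom_sum_eq (by norm_num)]
    have : (0 : ℝ) ≤ (3 / 4) ^ (j + 1) := by positivity
    rw [div_le_iff_of_neg (by norm_num)]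
    linarith
  calc ∑ y ∈ range (j + 1), ε0 * (1 / 4) ^ y * psi y j
      = ∑ y ∈ range (j + 1), ε0 / 3 ^ j * (3 / 4) ^ y := by
        apply Finset.sum_congr rfl
        intro y hy
        rw [Finset.mem_range] at hy
        rw [psi_eq (by omega), div_pow, div_pow, one_pow]
        ring
    _ = ε0 / 3 ^ j * ∑ y ∈ range (j + 1), (3 / 4) ^ y := by rw [Finset.mul_sum]
    _ ≤ ε0 / 3 ^ j * 4 := mul_le_mul_of_nonneg_left h2 (by positivity)
    _ = 4 * ε0 / 3 ^ j := by ring

end Lad
end H72C
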